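import Pool.Agent.X133.QM.Fin

/-! The diffusion constant is positive. -/

set_option autoImplicit false

open scoped BigOperators Topology
open MeasureTheory Filter Set

namespace Pool.Agent.X133.QM

open Pool.Agent.W788.BK
open Pool.Agent.H4R2.LO (Zd)
open Pool.Agent.W788.BK.Num
open Pool.Agent.TH794.QD

theorem gam_pos (hO : S_OSC) (d : ℕ) (hd : 3 ≤ d) (m : ℝ) (hm : 0 < m)
    (h : ∀ E : ℝ, |E| ≤ 1 → m ≤ (GF (F1 d) (E : ℂ)).im) : 0 < Gam d := by
  have hd3 : (3 : ℝ) ≤ d := by exact_mod_cast hd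
  have hpt : ∀ E : ℝ, 0 ≤ (GF (F1 d) (E : ℂ)).im / (GF (F0 d) (E : ℂ)).im := by
    intro E
    obtain ⟨h1, h2⟩ := GF_im hO d hd (E : ℂ) (by simp)
    exact div_nonneg h1 (h1.trans h2)
  have hint : IntegrableOn (fun E : ℝ => (GF (F1 d) (E : ℂ)).im / (GF (F0 d) (E : ℂ)).im)
      (Set.Icc (-(2 * d : ℝ)) (2 * d)) := by
    have := ratio_int hO d hd 0 le_rfl (Set.Icc (-(2 * d : ℝ)) (2 * d)) measurableSet_Icc (by
      rw [Real.volume_Icc]
      exact ENNReal.ofReal_lt_top)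
    simpa using this
  unfold Gam
  rw [setIntegral_pos_iff_support_of_nonneg_ae (ae_of_all _ hpt) hint]
  have hsub : Set.Icc (-1 : ℝ) 1 ⊆ Function.support
      (fun E : ℝ => (GF (F1 d) (E : ℂ)).im / (GF (F0 d) (E : ℂ)).im) ∩
      Set.Icc (-(2 * d : ℝ)) (2 * d) := by
    intro E hE
    refine ⟨?_, by linarith [hE.1], by linarith [hE.2]⟩
    have h1 := h E (abs_le.2 hE)
    obtain ⟨h2, h3⟩ := GF_im hO d hd (E : ℂ) (by simp)
    have h4 : 0 < (GF (F1 d) (E : ℂ)).im / (GF (F0 d) (E : ℂ)).im := by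
      apply div_pos <;> linarith
    exact h4.ne'
  refine lt_of_lt_of_le ?_ (measure_mono hsub)
  rw [Real.volume_Icc]
  norm_num

end Pool.Agent.X133.QM
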