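import Pool.Agent.TH794.QE.FinA

/-! The resolvent far from the spectrum. -/

set_option autoImplicit false
set_option linter.unusedSectionVars false
set_option linter.unusedVariables false

open scoped BigOperators Topology
open MeasureTheory Filter Set

namespace Pool.Agent.X133.QM

open Pool.Agent.W788.LD.Spec (S)
open Pool.Agent.H4R2.LO (Zd)
open Pool.Agent.TH794.QE

variable {d : ℕ}

theorem sh1 (v : Zd d → ℂ) (N : ℝ) (hv : HasSum (fun x => ‖v x‖ ^ 2) N) (e : Zd d) :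
    HasSum (fun x : Zd d => ‖v (x + e)‖ ^ 2) N := by
  have h := (Equiv.addRight e).hasSum_iff (f := fun x => ‖v x‖ ^ 2) (a := N)
  exact h.2 hv

theorem sh2 (v : Zd d → ℂ) (N : ℝ) (hv : HasSum (fun x => ‖v x‖ ^ 2) N) (e : Zd d) :
    HasSum (fun x : Zd d => ‖v (x - e)‖ ^ 2) N := by
  have h := sh1 v N hv (-e)
  simpa only [sub_eq_add_neg] using h

theorem nb_sum (v : Zd d → ℂ) (N : ℝ) (hv : HasSum (fun x => ‖v x‖ ^ 2) N) :
    HasSum (fun x : Zd d => ∑ i : Fin d, (‖v x‖ ^ 2 + (‖v (x + Pi.single i 1)‖ ^ 2 +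
      ‖v (x - Pi.single i 1)‖ ^ 2) / 2)) (2 * d * N) := by
  have h1 : ∀ i : Fin d, HasSum (fun x : Zd d => ‖v x‖ ^ 2 + (‖v (x + Pi.single i 1)‖ ^ 2 +
      ‖v (x - Pi.single i 1)‖ ^ 2) / 2) (2 * N) := by
    intro i
    have h2 : HasSum (fun x : Zd d => ‖v (x + Pi.single i 1)‖ ^ 2) N := sh1 v N hv _
    have h3 : HasSum (fun x : Zd d => ‖v (x - Pi.single i 1)‖ ^ 2) N := sh2 v N hv _
    have h4 := hv.add ((h2.add h3).div_const 2)
    have h5 : N + (N + N) / 2 = 2 * N := by ring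
    rwa [h5] at h4
  have h6 := hasSum_sum (s := (Finset.univ : Finset (Fin d))) fun i _ => h1 i
  rw [Finset.sum_const, Finset.card_univ, Fintype.card_fin, nsmul_eq_mul] at h6
  have h7 : (d : ℝ) * (2 * N) = 2 * d * N := by ring
  rwa [h7] at h6

theorem pt_S (v : Zd d → ℂ) (x : Zd d) : |((starRingEnd ℂ) (v x) * S v x).re| ≤
    ∑ i : Fin d, (‖v x‖ ^ 2 + (‖v (x + Pi.single i 1)‖ ^ 2 + ‖v (x - Pi.single i 1)‖ ^ 2) / 2) := by
  refine (Complex.abs_re_le_norm _).trans ?_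
  unfold S
  rw [Finset.mul_sum]
  refine (norm_sum_le _ _).trans (Finset.sum_le_sum fun i _ => ?_)
  rw [norm_mul, Complex.norm_conj]
  have h1 := norm_add_le (v (x + Pi.single i 1)) (v (x - Pi.single i 1))
  have h2 := norm_nonneg (v x)
  calc ‖v x‖ * ‖v (x + Pi.single i 1) + v (x - Pi.single i 1)‖ ≤
        ‖v x‖ * (‖v (x + Pi.single i 1)‖ + ‖v (x - Pi.single i 1)‖) := by gcongr
    _ ≤ _ := by
        nlinarith [sq_nonneg (‖v x‖ - ‖v (x + Pi.single i 1)‖),
          sq_nonneg (‖v x‖ - ‖v (x - Pi.single i 1)‖)]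

theorem far0 (W : Zd d → ℝ) (e η m r δ : ℝ) (hW : ∀ x, |W x - m| ≤ r) (hδ : 0 < δ)
    (hfar : 2 * d + r + δ ≤ |m - e|) (v g : Zd d → ℂ) (hv : Summable fun x => ‖v x‖ ^ 2)
    (hg : ∀ x, g x = -S v x + (W x : ℂ) * v x - ((e : ℂ) + (η : ℂ) * Complex.I) * v x)
    (hgs : Summable fun x => ‖g x‖ ^ 2) :
    ∑' x, ‖v x‖ ^ 2 ≤ (∑' x, ‖g x‖ ^ 2) / δ ^ 2 := by
  obtain ⟨N, hN⟩ : ∃ N, N = ∑' x, ‖v x‖ ^ 2 := ⟨_, rfl⟩
  obtain ⟨G, hG⟩ : ∃ G, G = ∑' x, ‖g x‖ ^ 2 := ⟨_, rfl⟩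
  have hvN : HasSum (fun x => ‖v x‖ ^ 2) N := by rw [hN]; exact hv.hasSum
  have hgG : HasSum (fun x => ‖g x‖ ^ 2) G := by rw [hG]; exact hgs.hasSum
  rw [← hN, ← hG]
  have hpt : ∀ x, (|m - e| - r) * ‖v x‖ ^ 2 ≤ (δ / 2 * ‖v x‖ ^ 2 + ‖g x‖ ^ 2 / (2 * δ)) +
      ∑ i : Fin d, (‖v x‖ ^ 2 + (‖v (x + Pi.single i 1)‖ ^ 2 +
        ‖v (x - Pi.single i 1)‖ ^ 2) / 2) := by
    intro x
    have h1 := pt_S v x
    have h2 : ((starRingEnd ℂ) (v x) * g x).re = -((starRingEnd ℂ) (v x) * S v x).re +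
        (W x - e) * ‖v x‖ ^ 2 := by
      rw [hg, ← Complex.normSq_eq_norm_sq, Complex.normSq_apply]
      simp only [Complex.mul_re, Complex.mul_im, Complex.add_re, Complex.add_im, Complex.sub_re,
        Complex.sub_im, Complex.neg_re, Complex.neg_im, Complex.I_re, Complex.I_im,
        Complex.conj_re, Complex.conj_im, Complex.ofReal_re, Complex.ofReal_im]
      ring
    have h3 : |((starRingEnd ℂ) (v x) * g x).re| ≤ δ / 2 * ‖v x‖ ^ 2 + ‖g x‖ ^ 2 / (2 * δ) := by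
      refine (Complex.abs_re_le_norm _).trans ?_
      rw [norm_mul, Complex.norm_conj]
      have h4 : 0 ≤ (δ * ‖v x‖ - ‖g x‖) ^ 2 / (2 * δ) := by positivity
      have h5 : (δ * ‖v x‖ - ‖g x‖) ^ 2 / (2 * δ) = δ / 2 * ‖v x‖ ^ 2 + ‖g x‖ ^ 2 / (2 * δ) -
          ‖v x‖ * ‖g x‖ := by
        field_simp
        ring
      linarith
    have h6 : |(W x - e) * ‖v x‖ ^ 2| ≤ |((starRingEnd ℂ) (v x) * g x).re| +
        |((starRingEnd ℂ) (v x) * S v x).re| := by
      have h7 : (W x - e) * ‖v x‖ ^ 2 = ((starRingEnd ℂ) (v x) * g x).re +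
          ((starRingEnd ℂ) (v x) * S v x).re := by
        rw [h2]
        ring
      rw [h7]
      exact abs_add_le _ _
    rw [abs_mul, abs_of_nonneg (sq_nonneg ‖v x‖)] at h6
    have h8 : |m - e| - r ≤ |W x - e| := by
      have h9 := abs_sub_abs_le_abs_sub (m - e) (m - W x)
      have h10 := hW x
      rw [abs_sub_comm] at h10
      have h11 : m - e - (m - W x) = W x - e := by ring
      rw [h11] at h9
      linarith
    have h12 : (|m - e| - r) * ‖v x‖ ^ 2 ≤ |W x - e| * ‖v x‖ ^ 2 := by gcongr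
    linarith
  have h1 := hasSum_le hpt (hvN.mul_left (|m - e| - r))
    (((hvN.mul_left (δ / 2)).add (hgG.div_const (2 * δ))).add (nb_sum v N hvN))
  have hN0 : 0 ≤ N := by rw [hN]; exact tsum_nonneg fun x => sq_nonneg _
  have h2 : (2 * d + δ) * N ≤ (|m - e| - r) * N := by
    apply mul_le_mul_of_nonneg_right _ hN0
    linarith
  have h3 : δ / 2 * N ≤ G / (2 * δ) := by nlinarith
  rw [le_div_iff₀ (by positivity)]
  rw [le_div_iff₀ (by positivity)] at h3
  nlinarith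

/-- the clamped coordinate -/
noncomputable def cl (R : ℝ) (a : Zd d) (j : Fin d) (x : Zd d) : ℝ :=
  max (-R) (min R ((x j : ℝ) - a j))

theorem cl_lip (R p q : ℝ) : |max (-R) (min R p) - max (-R) (min R q)| ≤ |p - q| :=
  (abs_max_sub_max_le_abs _ _ _).trans (abs_min_sub_min_le_max_abs' R p q)
where
  abs_max_sub_max_le_abs (c x y : ℝ) : |max c x - max c y| ≤ |x - y| := by
    rcases le_total c x with h1 | h1 <;> rcases le_total c y with h2 | h2 <;>
      simp only [max_eq_left, max_eq_right, h1, h2, sub_self, abs_zero, abs_nonneg, le_refl]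
    · rw [abs_of_nonneg (by linarith), abs_of_nonneg (by linarith)]
      linarith
    · rw [abs_of_nonpos (by linarith), abs_of_nonpos (by linarith)]
      linarith
  abs_min_sub_min_le_max_abs' (c x y : ℝ) : |min c x - min c y| ≤ |x - y| := by
    rcases le_total c x with h1 | h1 <;> rcases le_total c y with h2 | h2 <;>
      simp only [min_eq_left, min_eq_right, h1, h2, sub_self, abs_zero, abs_nonneg, le_refl]
    · rw [abs_of_nonneg (by linarith), abs_of_nonneg (by linarith)]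
      linarith
    · rw [abs_of_nonpos (by linarith), abs_of_nonpos (by linarith)]
      linarith

theorem cl_step (R : ℝ) (a : Zd d) (j i : Fin d) (x : Zd d) (e : ℤ) (he : |(e : ℝ)| ≤ 1) :
    |cl R a j (x + Pi.single i e) - cl R a j x| ≤ if i = j then 1 else 0 := by
  unfold cl
  split_ifs with h
  · refine (cl_lip _ _ _).trans ?_
    rw [h, Pi.add_apply, Pi.single_eq_same]
    push_cast
    have h1 : (x j : ℝ) + e - a j - (x j - a j) = e := by ring
    rw [h1]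
    exact he
  · rw [Pi.add_apply, Pi.single_eq_of_ne (Ne.symm h), add_zero, sub_self, abs_zero]

theorem cl_abs (R : ℝ) (hR : 0 ≤ R) (a : Zd d) (j : Fin d) (x : Zd d) : |cl R a j x| ≤ R := by
  unfold cl
  rw [abs_le]
  exact ⟨le_max_left _ _, max_le (by linarith) (min_le_left _ _)⟩

theorem cl_eq (R : ℝ) (a : Zd d) (j : Fin d) (x : Zd d) (h : |(x j : ℝ) - a j| ≤ R) :
    cl R a j x = (x j : ℝ) - a j := by
  unfold cl
  obtain ⟨h1, h2⟩ := abs_le.1 h
  rw [min_eq_right h2, max_eq_right h1]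

/-- the commutator -/
theorem comm_le (R : ℝ) (a : Zd d) (j : Fin d) (u : Zd d → ℂ) (x : Zd d) :
    ‖(cl R a j x : ℂ) * S u x - S (fun y => (cl R a j y : ℂ) * u y) x‖ ^ 2 ≤
      2 * (‖u (x + Pi.single j 1)‖ ^ 2 + ‖u (x - Pi.single j 1)‖ ^ 2) := by
  have h1 : (cl R a j x : ℂ) * S u x - S (fun y => (cl R a j y : ℂ) * u y) x =
      ∑ i : Fin d, (-(((cl R a j (x + Pi.single i 1) - cl R a j x : ℝ) : ℂ)) *
        u (x + Pi.single i 1) + -(((cl R a j (x - Pi.single i 1) - cl R a j x : ℝ) : ℂ)) *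
        u (x - Pi.single i 1)) := by
    unfold S
    rw [Finset.mul_sum, ← Finset.sum_sub_distrib]
    refine Finset.sum_congr rfl fun i _ => ?_
    push_cast
    ring
  have h2 : ∀ i : Fin d, ‖(-(((cl R a j (x + Pi.single i 1) - cl R a j x : ℝ) : ℂ)) *
        u (x + Pi.single i 1) + -(((cl R a j (x - Pi.single i 1) - cl R a j x : ℝ) : ℂ)) *
        u (x - Pi.single i 1))‖ ≤ (if i = j then 1 else 0) * (‖u (x + Pi.single i 1)‖ +
          ‖u (x - Pi.single i 1)‖) := by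
    intro i
    refine (norm_add_le _ _).trans ?_
    rw [norm_mul, norm_mul, norm_neg, norm_neg, Complex.norm_real, Complex.norm_real,
      Real.norm_eq_abs, Real.norm_eq_abs, mul_add]
    have h3 := cl_step R a j i x 1 (by simp)
    have h4 := cl_step R a j i x (-1) (by simp)
    have h5 : x - Pi.single i 1 = x + Pi.single i (-1) := by
      rw [sub_eq_add_neg, ← Pi.single_neg]
    rw [← h5] at h4
    gcongr
  rw [h1]
  have h3 := (norm_sum_le (Finset.univ : Finset (Fin d)) _).trans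
    (Finset.sum_le_sum fun i _ => h2 i)
  simp only [ite_mul, one_mul, zero_mul, Finset.sum_ite_eq', Finset.mem_univ, if_true] at h3
  refine (pow_le_pow_left₀ (norm_nonneg _) h3 2).trans ?_
  nlinarith [sq_nonneg (‖u (x + Pi.single j 1)‖ - ‖u (x - Pi.single j 1)‖)]

/-- **the second moment of the resolvent far from the spectrum** -/
theorem far (W : Zd d → ℝ) (a : Zd d) (e η m r δ : ℝ) (hW : ∀ x, |W x - m| ≤ r) (hδ : 0 < δ)
    (hfar : 2 * d + r + δ ≤ |m - e|) (u : Zd d → ℂ) (hu : Rs d W a e η u) (j : Fin d) :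
    (Summable fun x => ((x j : ℝ) - a j) ^ 2 * ‖u x‖ ^ 2) ∧
    ∑' x, ((x j : ℝ) - a j) ^ 2 * ‖u x‖ ^ 2 ≤ 4 / δ ^ 4 := by
  have hdel : HasSum (fun x : Zd d => ‖(if x = a then (1 : ℂ) else 0)‖ ^ 2) 1 := by
    have := hasSum_single (f := fun x : Zd d => ‖if x = a then (1 : ℂ) else 0‖ ^ 2) a
      (fun x hx => by
        rw [if_neg hx]
        simp)
    simp only [if_true, norm_one, one_pow] at this
    exact this
  have h1 : ∑' x, ‖u x‖ ^ 2 ≤ 1 / δ ^ 2 := by
    have := far0 W e η m r δ hW hδ hfar u (fun x => if x = a then 1 else 0) hu.sq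
      (fun x => (hu.eq x).symm) hdel.summable
    rwa [hdel.tsum_eq] at this
  obtain ⟨N, hN⟩ : ∃ N, N = ∑' x, ‖u x‖ ^ 2 := ⟨_, rfl⟩
  have huN : HasSum (fun x => ‖u x‖ ^ 2) N := by rw [hN]; exact hu.sq.hasSum
  rw [← hN] at h1
  have h2 : HasSum (fun x : Zd d => ‖u (x + Pi.single j 1)‖ ^ 2) N := sh1 u N huN _
  have h3 : HasSum (fun x : Zd d => ‖u (x - Pi.single j 1)‖ ^ 2) N := sh2 u N huN _
  have h4 := (h2.add h3).mul_left 2
  have key : ∀ R : ℝ, 0 ≤ R → (Summable fun x => (cl R a j x) ^ 2 * ‖u x‖ ^ 2) ∧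
      ∑' x, (cl R a j x) ^ 2 * ‖u x‖ ^ 2 ≤ 4 / δ ^ 4 := by
    intro R hR
    have hvx : ∀ x, ‖(cl R a j x : ℂ) * u x‖ ^ 2 = (cl R a j x) ^ 2 * ‖u x‖ ^ 2 := by
      intro x
      rw [norm_mul, Complex.norm_real, Real.norm_eq_abs, mul_pow, sq_abs]
    have hs : Summable fun x => (cl R a j x) ^ 2 * ‖u x‖ ^ 2 := by
      refine Summable.of_nonneg_of_le (fun x => by positivity) (fun x => ?_)
        (huN.summable.mul_left (R ^ 2))
      apply mul_le_mul_of_nonneg_right _ (sq_nonneg _)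
      rw [← sq_abs]
      exact pow_le_pow_left₀ (abs_nonneg _) (cl_abs R hR a j x) 2
    have hs' : Summable fun x => ‖(cl R a j x : ℂ) * u x‖ ^ 2 := by
      simp only [hvx]
      exact hs
    have hgx : ∀ x, (cl R a j x : ℂ) * S u x - S (fun y => (cl R a j y : ℂ) * u y) x =
        -S (fun y => (cl R a j y : ℂ) * u y) x + (W x : ℂ) * ((cl R a j x : ℂ) * u x) -
          ((e : ℂ) + (η : ℂ) * Complex.I) * ((cl R a j x : ℂ) * u x) := by
      intro x
      have h5 := hu.eq x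
      have h6 : (cl R a j x : ℂ) * (if x = a then 1 else 0) = 0 := by
        split_ifs with h
        · rw [h]
          unfold cl
          rw [sub_self, min_eq_right hR, max_eq_right (by linarith)]
          simp
        · rw [mul_zero]
      rw [← h5] at h6
      linear_combination -h6
    have hgs : Summable fun x => ‖(cl R a j x : ℂ) * S u x -
        S (fun y => (cl R a j y : ℂ) * u y) x‖ ^ 2 :=
      Summable.of_nonneg_of_le (fun x => sq_nonneg _) (fun x => comm_le R a j u x) h4.summable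
    have h7 := far0 W e η m r δ hW hδ hfar (fun x => (cl R a j x : ℂ) * u x) _ hs' hgx hgs
    have h8 : ∑' x, ‖(cl R a j x : ℂ) * S u x - S (fun y => (cl R a j y : ℂ) * u y) x‖ ^ 2 ≤
        2 * (N + N) := by
      rw [← h4.tsum_eq]
      exact hgs.tsum_le_tsum (fun x => comm_le R a j u x) h4.summable
    refine ⟨hs, ?_⟩
    simp only [hvx] at h7
    calc ∑' x, (cl R a j x) ^ 2 * ‖u x‖ ^ 2 ≤ (∑' x, ‖(cl R a j x : ℂ) * S u x -
          S (fun y => (cl R a j y : ℂ) * u y) x‖ ^ 2) / δ ^ 2 := h7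
      _ ≤ (2 * (N + N)) / δ ^ 2 := by gcongr
      _ ≤ (2 * (1 / δ ^ 2 + 1 / δ ^ 2)) / δ ^ 2 := by gcongr
      _ = 4 / δ ^ 4 := by
          field_simp
          ring
  have hpart : ∀ F : Finset (Zd d), ∑ x ∈ F, ((x j : ℝ) - a j) ^ 2 * ‖u x‖ ^ 2 ≤ 4 / δ ^ 4 := by
    intro F
    obtain ⟨R, hR⟩ : ∃ R, R = ∑ x ∈ F, |(x j : ℝ) - a j| := ⟨_, rfl⟩
    have hR0 : 0 ≤ R := by
      rw [hR]
      exact Finset.sum_nonneg fun x _ => abs_nonneg _
    obtain ⟨k1, k2⟩ := key R hR0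
    refine le_trans (le_of_eq ?_) ((k1.sum_le_tsum F fun x _ => by positivity).trans k2)
    refine Finset.sum_congr rfl fun x hx => ?_
    rw [cl_eq R a j x (by
      rw [hR]
      exact Finset.single_le_sum (f := fun x : Zd d => |(x j : ℝ) - a j|)
        (fun x _ => abs_nonneg _) hx)]
  have hsum : Summable fun x => ((x j : ℝ) - a j) ^ 2 * ‖u x‖ ^ 2 :=
    summable_of_sum_le (fun x => by positivity) hpart
  exact ⟨hsum, hsum.tsum_le_of_sum_le hpart⟩

end Pool.Agent.X133.QM
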