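import Mathlib

/-! From Laplace transforms to time averages, for differences of nonnegative functions. -/

set_option autoImplicit false
set_option linter.unusedSectionVars false
set_option linter.unusedVariables false

open scoped BigOperators Topology
open MeasureTheory Filter Set Polynomial

namespace Pool.Agent.X133.QM

theorem weier2 (φ : ℝ → ℝ) (hφ : Continuous φ) (hs : HasCompactSupport φ) (ε : ℝ) (hε : 0 < ε)
    (C : ℝ) (hC : 0 < C) :
    ∃ (n : ℕ) (δ : ℝ), 0 < δ ∧ ∀ s : ℝ, 0 < s → ∀ F1 F2 : ℝ → ℝ,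
      (∀ t : ℝ, 0 < t → 0 ≤ F1 t) → (∀ t : ℝ, 0 < t → 0 ≤ F2 t) →
      AEStronglyMeasurable F1 (volume.restrict (Ioi (0 : ℝ))) →
      AEStronglyMeasurable F2 (volume.restrict (Ioi (0 : ℝ))) →
      IntegrableOn (fun t => s * Real.exp (-s * t) * F1 t) (Ioi (0 : ℝ)) →
      IntegrableOn (fun t => s * Real.exp (-s * t) * F2 t) (Ioi (0 : ℝ)) →
      (∫ t in Ioi (0 : ℝ), s * Real.exp (-s * t) * F1 t) ≤ C →
      (∫ t in Ioi (0 : ℝ), s * Real.exp (-s * t) * F2 t) ≤ C →
      (∀ j : ℕ, j ≤ n → |∫ t in Ioi (0 : ℝ), s * Real.exp (-((j + 1) * s) * t) *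
        (F1 t - F2 t)| ≤ δ) →
      |∫ t in Ioi (0 : ℝ), s * φ (s * t) * (F1 t - F2 t)| ≤ ε := by
  obtain ⟨R, hR0, hR⟩ : ∃ R : ℝ, 0 < R ∧ ∀ x : ℝ, R ≤ x → φ x = 0 := by
    obtain ⟨R, hR⟩ := hs.isCompact.isBounded.subset_closedBall 0
    refine ⟨max R 0 + 1, by positivity, fun x hx => ?_⟩
    by_contra hne
    have h1 := hR (subset_tsupport φ hne)
    rw [Metric.mem_closedBall, dist_zero_right, Real.norm_eq_abs] at h1
    have h2 := le_abs_self x
    have h3 := le_max_left R 0
    linarith
  obtain ⟨m, hm⟩ : ∃ m, m = Real.exp (-R) := ⟨_, rfl⟩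
  have hm0 : 0 < m := by rw [hm]; exact Real.exp_pos _
  obtain ⟨H, hH⟩ : ∃ H : ℝ → ℝ, H = fun x => φ (-Real.log (max x m)) / max x m := ⟨_, rfl⟩
  have hmx : ∀ x : ℝ, 0 < max x m := fun x => hm0.trans_le (le_max_right _ _)
  have hHc : Continuous H := by
    rw [hH]
    apply Continuous.div
    · apply hφ.comp
      apply Continuous.neg
      apply Continuous.log
      · fun_prop
      · intro x
        exact (hmx x).ne'
    · fun_prop
    · intro x
      exact (hmx x).ne'
  have hHx : ∀ x : ℝ, 0 < x → φ (-Real.log x) = x * H x := by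
    intro x hx
    rw [hH]
    simp only
    rcases le_or_gt m x with h | h
    · rw [max_eq_left h]
      field_simp
    · rw [max_eq_right h.le]
      have h1 : R ≤ -Real.log x := by
        have := Real.log_lt_log hx h
        rw [hm, Real.log_exp] at this
        linarith
      have h2 : φ (-Real.log m) = 0 := by
        rw [hm, Real.log_exp, neg_neg]
        exact hR R le_rfl
      rw [hR _ h1, h2]
      ring
  obtain ⟨p, hp⟩ := exists_polynomial_near_of_continuousOn 0 1 H hHc.continuousOn (ε / (4 * C))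
    (by positivity)
  obtain ⟨Cp, hCp⟩ : ∃ Cp, Cp = ∑ j ∈ Finset.range (p.natDegree + 1), |p.coeff j| := ⟨_, rfl⟩
  have hCp0 : 0 ≤ Cp := by rw [hCp]; positivity
  refine ⟨p.natDegree, ε / (2 * (1 + Cp)), by positivity, ?_⟩
  intro s hs0 F1 F2 hF10 hF20 hF1m hF2m hI1 hI2 hC1 hC2 hj
  obtain ⟨F, hF⟩ : ∃ F : ℝ → ℝ, F = fun t => F1 t - F2 t := ⟨_, rfl⟩
  have hFm : AEStronglyMeasurable F (volume.restrict (Ioi (0 : ℝ))) := by
    rw [hF]
    exact hF1m.sub hF2m
  have hFt : ∀ t, F1 t - F2 t = F t := fun t => by rw [hF]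
  simp only [hFt] at hj ⊢
  have hFle : ∀ t : ℝ, 0 < t → |F t| ≤ F1 t + F2 t := by
    intro t ht
    have h1 := hF10 t ht
    have h2 := hF20 t ht
    rw [hF, abs_le]
    constructor <;> simp only <;> linarith
  have hI : IntegrableOn (fun t => s * Real.exp (-s * t) * F1 t + s * Real.exp (-s * t) * F2 t)
      (Ioi (0 : ℝ)) := hI1.add hI2
  have hIC : (∫ t in Ioi (0 : ℝ), (s * Real.exp (-s * t) * F1 t + s * Real.exp (-s * t) * F2 t)) ≤
      2 * C := by
    rw [integral_add hI1 hI2]
    linarith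
  -- the integrands
  have hej : ∀ j : ℕ, Integrable (fun t => s * Real.exp (-((j + 1) * s) * t) * F t)
      (volume.restrict (Ioi (0 : ℝ))) := by
    intro j
    refine Integrable.mono' hI ?_ ?_
    · exact AEStronglyMeasurable.mul (by fun_prop) hFm
    · rw [ae_restrict_iff' measurableSet_Ioi]
      refine Filter.Eventually.of_forall fun t ht => ?_
      have ht0 : 0 < t := ht
      rw [norm_mul, Real.norm_of_nonneg (by positivity), Real.norm_eq_abs]
      have h1 : Real.exp (-((j + 1) * s) * t) ≤ Real.exp (-s * t) := by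
        apply Real.exp_le_exp.2
        have h2 : 0 ≤ (j : ℝ) * s * t := by positivity
        nlinarith
      calc s * Real.exp (-((j + 1) * s) * t) * |F t| ≤ s * Real.exp (-s * t) * (F1 t + F2 t) := by
            have := hFle t ht
            gcongr
        _ = _ := by ring
  have hdec : ∀ t : ℝ, 0 < t → s * φ (s * t) * F t =
      (∑ j ∈ Finset.range (p.natDegree + 1), p.coeff j *
        (s * Real.exp (-((j + 1) * s) * t) * F t)) +
      s * (Real.exp (-s * t) * (H (Real.exp (-s * t)) - p.eval (Real.exp (-s * t)))) * F t := by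
    intro t ht
    obtain ⟨x, hx⟩ : ∃ x, x = Real.exp (-s * t) := ⟨_, rfl⟩
    have hx0 : 0 < x := by rw [hx]; exact Real.exp_pos _
    have h1 : φ (s * t) = x * H x := by
      rw [← hHx x hx0, hx, Real.log_exp]
      congr 1
      ring
    have h2 : ∀ j : ℕ, Real.exp (-((j + 1) * s) * t) = x * x ^ j := by
      intro j
      rw [hx, ← Real.exp_nat_mul, ← Real.exp_add]
      congr 1
      ring
    have h3 : p.eval x = ∑ j ∈ Finset.range (p.natDegree + 1), p.coeff j * x ^ j :=
      p.eval_eq_sum_range x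
    rw [← hx, h1]
    simp only [h2]
    have h4 : ∑ j ∈ Finset.range (p.natDegree + 1), p.coeff j *
        (s * (x * x ^ j) * F t) = s * (x * p.eval x) * F t := by
      rw [h3, Finset.mul_sum, Finset.mul_sum, Finset.sum_mul]
      refine Finset.sum_congr rfl fun j _ => ?_
      ring
    rw [h4]
    ring
  have hrem : Integrable (fun t => s * (Real.exp (-s * t) * (H (Real.exp (-s * t)) -
      p.eval (Real.exp (-s * t)))) * F t) (volume.restrict (Ioi (0 : ℝ))) ∧
      |∫ t in Ioi (0 : ℝ), s * (Real.exp (-s * t) * (H (Real.exp (-s * t)) -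
      p.eval (Real.exp (-s * t)))) * F t| ≤ ε / 2 := by
    have hi := hI.const_mul (ε / (4 * C))
    have hb : ∀ᵐ t ∂(volume.restrict (Ioi (0 : ℝ))), ‖s * (Real.exp (-s * t) *
        (H (Real.exp (-s * t)) - p.eval (Real.exp (-s * t)))) * F t‖ ≤
        ε / (4 * C) * (s * Real.exp (-s * t) * F1 t + s * Real.exp (-s * t) * F2 t) := by
      rw [ae_restrict_iff' measurableSet_Ioi]
      refine Filter.Eventually.of_forall fun t ht => ?_
      have ht0 : 0 < t := ht
      have hx1 : Real.exp (-s * t) ∈ Set.Icc (0 : ℝ) 1 :=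
        ⟨(Real.exp_pos _).le, Real.exp_le_one_iff.2 (by
          have := mul_pos hs0 ht0
          linarith)⟩
      have h5 := hp _ hx1
      rw [norm_mul, Real.norm_eq_abs, Real.norm_eq_abs, abs_mul, abs_mul, abs_of_pos hs0,
        abs_of_pos (Real.exp_pos _), abs_sub_comm]
      have h6 := hFle t ht0
      calc s * (Real.exp (-s * t) * |p.eval (Real.exp (-s * t)) - H (Real.exp (-s * t))|) * |F t| ≤
            s * (Real.exp (-s * t) * (ε / (4 * C))) * (F1 t + F2 t) := by gcongr
        _ = _ := by ring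
    refine ⟨Integrable.mono' hi ?_ hb, ?_⟩
    · exact AEStronglyMeasurable.mul (by fun_prop) hFm
    · rw [← Real.norm_eq_abs]
      refine (norm_integral_le_of_norm_le hi hb).trans ?_
      rw [integral_const_mul]
      calc ε / (4 * C) * (∫ t in Ioi (0 : ℝ), (s * Real.exp (-s * t) * F1 t +
            s * Real.exp (-s * t) * F2 t)) ≤ ε / (4 * C) * (2 * C) := by gcongr
        _ = ε / 2 := by field_simp; ring
  have hsum : ∫ t in Ioi (0 : ℝ), s * φ (s * t) * F t =
      (∑ j ∈ Finset.range (p.natDegree + 1), p.coeff j *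
        ∫ t in Ioi (0 : ℝ), (s * Real.exp (-((j + 1) * s) * t) * F t)) +
      ∫ t in Ioi (0 : ℝ), s * (Real.exp (-s * t) * (H (Real.exp (-s * t)) -
        p.eval (Real.exp (-s * t)))) * F t := by
    rw [setIntegral_congr_fun measurableSet_Ioi fun t ht => hdec t ht,
      integral_add (integrable_finsetSum _ fun j _ => (hej j).const_mul _) hrem.1,
      integral_finsetSum _ fun j _ => (hej j).const_mul _]
    congr 1
    refine Finset.sum_congr rfl fun j _ => ?_
    rw [integral_const_mul]
  rw [hsum]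
  refine (abs_add_le _ _).trans ?_
  have h7 : |∑ j ∈ Finset.range (p.natDegree + 1), p.coeff j *
      ∫ t in Ioi (0 : ℝ), (s * Real.exp (-((j + 1) * s) * t) * F t)| ≤ ε / 2 := by
    calc _ ≤ ∑ j ∈ Finset.range (p.natDegree + 1), |p.coeff j| * (ε / (2 * (1 + Cp))) := by
          refine (Finset.abs_sum_le_sum_abs _ _).trans (Finset.sum_le_sum fun j hj' => ?_)
          rw [abs_mul]
          apply mul_le_mul_of_nonneg_left _ (abs_nonneg _)
          exact hj j (by
            have := Finset.mem_range.1 hj'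
            omega)
      _ = Cp * (ε / (2 * (1 + Cp))) := by rw [← Finset.sum_mul, ← hCp]
      _ ≤ ε / 2 := by
          rw [mul_div_assoc', div_le_div_iff₀ (by positivity) (by norm_num)]
          nlinarith
  linarith [hrem.2]

end Pool.Agent.X133.QM
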