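import Pool.Agent.X133.QM.Pw
import Pool.Agent.X133.QM.Far
import Pool.Agent.X133.QM.Wei2
import Pool.Agent.X133.QP.Fin3
import Pool.Agent.TH794.QE.FinC

/-! The second moment of the evolution of a site, for one Laplace parameter. -/

set_option autoImplicit false
set_option linter.unusedSectionVars false
set_option linter.unusedVariables false

open scoped BigOperators Topology
open MeasureTheory Filter Set

namespace Pool.Agent.X133.QM

open Pool.Agent.H4R2.LO (Zd)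
open Pool.Agent.TH794.QD
open Pool.Agent.TH794.QE
open Pool.Agent.TH794.HK
open Pool.Agent.X133.QP

variable {d : ℕ}

/-- the second moment -/
noncomputable def Fs (ψ : ℝ → Zd d → ℂ) (a : Zd d) (j : Fin d) (t : ℝ) : ℝ :=
  ∑' x : Zd d, ((x j : ℝ) - a j) ^ 2 * ‖ψ t x‖ ^ 2

theorem msd_eta (hd : 3 ≤ d) (ω : Zd d → ℝ) (c : ℝ) (hc : 0 < c) (hc1 : c ≤ 1)
    (hω : ∀ x, |ω x| ≤ c) (a : Zd d) (ψ : ℝ → Zd d → ℂ)
    (h : Sol d (fun x => 2 * d + ω x) a ψ) (j : Fin d) (η s2 : ℝ) (hη : 0 < η) (hs2 : 0 < s2)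
    (P : ℝ → ℝ) (hP : ∀ E : ℝ, |E| ≤ 3 * d → 0 ≤ P E ∧ P E ≤ 1)
    (hPi : IntegrableOn P (Set.Icc (-(3 * d : ℝ)) (3 * d))) (err : ℝ) (herr0 : 0 ≤ err)
    (herr : err ≤ 1)
    (hlaw : ∀ E : ℝ, |E| ≤ 3 * d →
      (Summable fun x : Zd d => ((x j : ℝ) - a j) ^ 2 * ‖La ψ (2 * d - E) η x‖ ^ 2) ∧
      |η ^ 2 * s2 * (∑' x : Zd d, ((x j : ℝ) - a j) ^ 2 * ‖La ψ (2 * d - E) η x‖ ^ 2) -
        2 * P E| ≤ err) :
    (∀ᵐ s ∂(volume.restrict (Ioi (0 : ℝ))),
      Summable fun x : Zd d => ((x j : ℝ) - a j) ^ 2 * ‖ψ s x‖ ^ 2) ∧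
    IntegrableOn (fun s => Real.exp (-(2 * η) * s) * Fs ψ a j s) (Ioi (0 : ℝ)) ∧
    |2 * Real.pi * (η ^ 2 * s2) * (∫ s in Ioi (0 : ℝ), Real.exp (-(2 * η) * s) * Fs ψ a j s) -
      2 * ∫ E in Set.Icc (-(3 * d : ℝ)) (3 * d), P E| ≤
      6 * d * err + 5184 * Real.pi * (η ^ 2 * s2) := by
  have hd3 : (3 : ℝ) ≤ d := by exact_mod_cast hd
  obtain ⟨I, hI⟩ : ∃ I, I = Set.Icc (-(3 * d : ℝ)) (3 * d) := ⟨_, rfl⟩
  have hIm : MeasurableSet I := by rw [hI]; exact measurableSet_Icc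
  have hIE : ∀ E, E ∈ I ↔ |E| ≤ 3 * d := by
    intro E
    rw [hI, Set.mem_Icc, abs_le]
  obtain ⟨Q, hQ⟩ : ∃ Q : ℝ → ℝ, Q = fun E => ∑' x : Zd d, ((x j : ℝ) - a j) ^ 2 *
    ‖La ψ E η x‖ ^ 2 := ⟨_, rfl⟩
  have hQE : ∀ E, ∑' x : Zd d, ((x j : ℝ) - a j) ^ 2 * ‖La ψ E η x‖ ^ 2 = Q E := fun E => by
    rw [hQ]
  have hQ0 : ∀ E, 0 ≤ Q E := by
    intro E
    rw [hQ]
    exact tsum_nonneg fun x => by positivity
  -- far energies
  have hfar : ∀ E : ℝ, 3 * d < |E| →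
      (Summable fun x : Zd d => ((x j : ℝ) - a j) ^ 2 * ‖La ψ (2 * d - E) η x‖ ^ 2) ∧
      Q (2 * d - E) ≤ 5184 * (1 + E ^ 2)⁻¹ := by
    intro E hE
    have hE9 : 9 ≤ |E| := by linarith
    have hRs : Rs d (fun x => 2 * d + ω x) a (2 * d - E) η
        (fun x => Complex.I * La ψ (2 * d - E) η x) := ⟨La_sum h _ η hη, La_eq h _ η hη⟩
    have h1 := far (fun x => 2 * d + ω x) a (2 * d - E) η (2 * d) c (|E| / 6)
      (fun x => by
        have h2 : 2 * (d : ℝ) + ω x - 2 * d = ω x := by ring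
        rw [h2]
        exact hω x) (by positivity) (by
        rw [sub_sub_cancel]
        linarith) _ hRs j
    have hI' : ∀ x, ‖Complex.I * La ψ (2 * d - E) η x‖ = ‖La ψ (2 * d - E) η x‖ := by
      intro x
      rw [norm_mul, Complex.norm_I, one_mul]
    simp only [hI', hQE] at h1
    refine ⟨h1.1, h1.2.trans ?_⟩
    have h3 : (|E| / 6) ^ 4 = (E ^ 2) ^ 2 / 1296 := by
      rw [div_pow, ← sq_abs E]
      ring
    have h4 : 81 ≤ E ^ 2 := by
      rw [← sq_abs]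
      nlinarith
    rw [h3, ← div_eq_mul_inv, div_le_div_iff₀ (by positivity) (by positivity)]
    nlinarith
  have hs2η : 0 < η ^ 2 * s2 := by positivity
  -- the bound
  obtain ⟨K0, hK0⟩ : ∃ K0, K0 = 3 / (η ^ 2 * s2) * (1 + (3 * d) ^ 2) + 5184 := ⟨_, rfl⟩
  have hK00 : 0 ≤ K0 := by rw [hK0]; positivity
  have hbd : ∀ E : ℝ,
      (Summable fun x : Zd d => ((x j : ℝ) - a j) ^ 2 * ‖La ψ (2 * d - E) η x‖ ^ 2) ∧
      Q (2 * d - E) ≤ K0 * (1 + E ^ 2)⁻¹ := by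
    intro E
    have hE1 : 0 < 1 + E ^ 2 := by positivity
    by_cases hE : |E| ≤ 3 * d
    · obtain ⟨h1, h2⟩ := hlaw E hE
      rw [hQE] at h2
      refine ⟨h1, ?_⟩
      have h3 := (abs_le.1 h2).2
      have h4 := (hP E hE).2
      have h5 : η ^ 2 * s2 * Q (2 * d - E) ≤ 3 := by linarith
      have h6 : Q (2 * d - E) ≤ 3 / (η ^ 2 * s2) := by
        rw [le_div_iff₀ hs2η]
        linarith
      have h7 : 1 + E ^ 2 ≤ 1 + (3 * d) ^ 2 := by
        rw [← sq_abs E]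
        have := pow_le_pow_left₀ (abs_nonneg E) hE 2
        linarith
      rw [← div_eq_mul_inv, le_div_iff₀ hE1]
      have h8 : Q (2 * d - E) * (1 + E ^ 2) ≤ 3 / (η ^ 2 * s2) * (1 + (3 * d) ^ 2) := by
        have h9 : 0 ≤ 3 / (η ^ 2 * s2) := by positivity
        exact mul_le_mul h6 h7 hE1.le h9
      rw [hK0]
      linarith
    · obtain ⟨h1, h2⟩ := hfar E (not_le.1 hE)
      refine ⟨h1, h2.trans ?_⟩
      apply mul_le_mul_of_nonneg_right _ (inv_nonneg.2 hE1.le)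
      rw [hK0]
      have : 0 ≤ 3 / (η ^ 2 * s2) * (1 + (3 * (d : ℝ)) ^ 2) := by positivity
      linarith
  have hbi : Integrable fun E : ℝ => K0 * (1 + (2 * d - E) ^ 2)⁻¹ :=
    (integrable_inv_one_add_sq.comp_sub_left (2 * (d : ℝ))).const_mul K0
  obtain ⟨m1, m2, m3, m4⟩ := msd_one h η hη (fun x : Zd d => ((x j : ℝ) - a j) ^ 2)
    (fun x => sq_nonneg _) _ hbi (fun E => by
      obtain ⟨h1, h2⟩ := hbd (2 * d - E)
      rw [sub_sub_cancel] at h1 h2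
      refine ⟨h1, ?_⟩
      rw [hQE]
      exact h2)
  refine ⟨m1, m2, ?_⟩
  have m4' : ∫ E : ℝ, Q (2 * d - E) = 2 * Real.pi * ∫ s in Ioi (0 : ℝ),
      Real.exp (-(2 * η) * s) * Fs ψ a j s := by
    rw [integral_sub_left_eq_self Q volume (2 * (d : ℝ)), hQ]
    exact m4
  have hQi : Integrable fun E : ℝ => Q (2 * d - E) := by
    have h1 : Integrable Q := by
      rw [hQ]
      exact m3
    exact h1.comp_sub_left _
  have hsplit := integral_add_compl hIm hQi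
  have hfinI : IsFiniteMeasure (volume.restrict I) := ⟨by
    rw [Measure.restrict_apply_univ, hI, Real.volume_Icc]
    exact ENNReal.ofReal_lt_top⟩
  have hvI : volume.real I = 6 * d := by
    rw [hI, Real.volume_real_Icc_of_le (by linarith)]
    ring
  rw [← hI] at hPi
  have hin : |η ^ 2 * s2 * (∫ E in I, Q (2 * d - E)) - 2 * ∫ E in I, P E| ≤ 6 * d * err := by
    rw [← integral_const_mul, ← integral_const_mul, ← integral_sub
      (hQi.integrableOn.const_mul _) (hPi.const_mul _), ← Real.norm_eq_abs]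
    have h1 := norm_setIntegral_le_of_norm_le_const (μ := volume) (s := I) (C := err)
      (f := fun E => η ^ 2 * s2 * Q (2 * d - E) - 2 * P E) (by
        rw [hI, Real.volume_Icc]
        exact ENNReal.ofReal_lt_top) (fun E hE => by
        rw [Real.norm_eq_abs]
        have := (hlaw E ((hIE E).1 hE)).2
        rwa [hQE] at this)
    rw [hvI] at h1
    linarith
  have hout : (∫ E in Iᶜ, Q (2 * d - E)) ≤ 5184 * Real.pi := by
    have h1 : (∫ E in Iᶜ, Q (2 * d - E)) ≤ ∫ E in Iᶜ, 5184 * (1 + E ^ 2)⁻¹ := by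
      apply setIntegral_mono_on hQi.integrableOn
        (integrable_inv_one_add_sq.const_mul 5184).integrableOn hIm.compl
      intro E hE
      apply (hfar E _).2
      by_contra hcon
      exact hE ((hIE E).2 (not_lt.1 hcon))
    have h2 : (∫ E in Iᶜ, 5184 * (1 + E ^ 2)⁻¹) ≤ ∫ E : ℝ, 5184 * (1 + E ^ 2)⁻¹ :=
      setIntegral_le_integral (integrable_inv_one_add_sq.const_mul 5184)
        (Filter.Eventually.of_forall fun E => by positivity)
    have h3 : ∫ E : ℝ, 5184 * (1 + E ^ 2)⁻¹ = 5184 * Real.pi := by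
      rw [integral_const_mul, integral_univ_inv_one_add_sq]
    linarith
  have hout0 : 0 ≤ ∫ E in Iᶜ, Q (2 * d - E) := setIntegral_nonneg hIm.compl fun E _ => hQ0 _
  have hfin : 2 * Real.pi * (η ^ 2 * s2) *
      (∫ s in Ioi (0 : ℝ), Real.exp (-(2 * η) * s) * Fs ψ a j s) =
      η ^ 2 * s2 * (∫ E in I, Q (2 * d - E)) + η ^ 2 * s2 * ∫ E in Iᶜ, Q (2 * d - E) := by
    rw [← mul_add, hsplit, m4']
    ring
  rw [← hI, hfin]
  have h5 : η ^ 2 * s2 * (∫ E in Iᶜ, Q (2 * d - E)) ≤ η ^ 2 * s2 * (5184 * Real.pi) := by gcongr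
  have h6 : 0 ≤ η ^ 2 * s2 * (∫ E in Iᶜ, Q (2 * d - E)) := by positivity
  rw [abs_le] at hin ⊢
  have hpi := Real.pi_pos
  constructor
  · have : 0 ≤ 5184 * Real.pi * (η ^ 2 * s2) := by positivity
    linarith [hin.1]
  · linarith [hin.2]

/-- the Laplace transform of `t` -/
theorem te (r : ℝ) (hr : 0 < r) : IntegrableOn (fun t : ℝ => Real.exp (-r * t) * t) (Ioi (0 : ℝ)) ∧
    ∫ t in Ioi (0 : ℝ), Real.exp (-r * t) * t = 1 / r ^ 2 := by
  have h1 := Real.integral_rpow_mul_exp_neg_mul_Ioi (a := 2) (r := r) (by norm_num) hr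
  have h2 : ∫ t in Ioi (0 : ℝ), Real.exp (-r * t) * t = 1 / r ^ 2 := by
    have h3 : (1 / r) ^ (2 : ℝ) * Real.Gamma 2 = 1 / r ^ 2 := by
      rw [Real.Gamma_two, mul_one, Real.rpow_two, one_div, inv_pow, one_div]
    rw [← h3, ← h1]
    refine setIntegral_congr_fun measurableSet_Ioi fun t ht => ?_
    have h4 : (2 : ℝ) - 1 = 1 := by norm_num
    rw [h4, Real.rpow_one, mul_comm]
    congr 2
    ring
  refine ⟨?_, h2⟩
  by_contra hcon
  rw [integral_undef hcon] at h2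
  have : 0 < 1 / r ^ 2 := by positivity
  linarith

end Pool.Agent.X133.QM
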