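import Pool.Agent.X133.QM.Eta

/-! The mean square displacement, dimension at least three. -/

set_option autoImplicit false
set_option linter.unusedSectionVars false
set_option linter.unusedVariables false

open scoped BigOperators Topology
open MeasureTheory Filter Set

namespace Pool.Agent.X133.QM

open Pool.Agent.W788.BK
open Pool.Agent.H4R2.LO (Zd)
open Pool.Agent.W788.BK.Num
open Pool.Agent.TH794.QD
open Pool.Agent.TH794.QE
open Pool.Agent.TH794.HK
open Pool.Agent.X133.LL (ev_pow)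
open Pool.Agent.X133.QP

/-- the integral of the ratio -/
noncomputable def Gam (d : ℕ) : ℝ :=
  ∫ E in Set.Icc (-(2 * d : ℝ)) (2 * d), (GF (F1 d) (E : ℂ)).im / (GF (F0 d) (E : ℂ)).im

theorem gcont (hO : S_OSC) (d : ℕ) (hd : 3 ≤ d) :
    Continuous (fun E : ℝ => (GF (F0 d) (E : ℂ)).im) ∧
    Continuous (fun E : ℝ => (GF (F1 d) (E : ℂ)).im) := by
  have hcont : ∀ F : ℝ → ℂ, (∀ z z' : ℂ, 0 ≤ z.im → 0 ≤ z'.im →
      ‖GF F z - GF F z'‖ ≤ CH d * ‖z - z'‖ ^ (1 / 8 : ℝ)) →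
      ContinuousOn (fun E : ℝ => (GF F (E : ℂ)).im) Set.univ := by
    intro F hF
    refine hol_cont _ (fun E : ℝ => GF F (E : ℂ)) (CH d) fun E _ E' _ => ?_
    have h1 := hF (E : ℂ) (E' : ℂ) (by simp) (by simp)
    rwa [← Complex.ofReal_sub, Complex.norm_real, Real.norm_eq_abs] at h1
  exact ⟨continuousOn_univ.1 (hcont _ (hol0 hO d hd)), continuousOn_univ.1 (hcont _ (hol1 hO d hd))⟩

theorem ratio_bd (a b k : ℝ) (ha : 0 ≤ a) (hab : a ≤ b) (hk : 0 ≤ k) :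
    0 ≤ a / (k + b) ∧ a / (k + b) ≤ 1 := by
  have hb : 0 ≤ b := ha.trans hab
  refine ⟨by positivity, ?_⟩
  apply div_le_one_of_le₀ (by linarith) (by linarith)

theorem ratio_int (hO : S_OSC) (d : ℕ) (hd : 3 ≤ d) (k : ℝ) (hk : 0 ≤ k) (S : Set ℝ)
    (hS : MeasurableSet S) (hSf : volume S < ⊤) :
    IntegrableOn (fun E : ℝ => (GF (F1 d) (E : ℂ)).im / (k + (GF (F0 d) (E : ℂ)).im)) S := by
  obtain ⟨c0, c1⟩ := gcont hO d hd
  have hfin : IsFiniteMeasure (volume.restrict S) := ⟨by rwa [Measure.restrict_apply_univ]⟩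
  refine Integrable.of_bound ?_ 1 (Filter.Eventually.of_forall fun E => ?_)
  · exact (c1.measurable.div (measurable_const.add c0.measurable)).aestronglyMeasurable
  · obtain ⟨h1, h2⟩ := GF_im hO d hd (E : ℂ) (by simp)
    obtain ⟨h3, h4⟩ := ratio_bd _ _ k h1 h2 hk
    rw [Real.norm_of_nonneg h3]
    exact h4

theorem gam_eq (hO : S_OSC) (d : ℕ) (hd : 3 ≤ d) :
    (∫ E in Set.Icc (-(3 * d : ℝ)) (3 * d), (GF (F1 d) (E : ℂ)).im / (GF (F0 d) (E : ℂ)).im) =
      Gam d := by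
  obtain ⟨c0, c1⟩ := gcont hO d hd
  have hd0 : (0 : ℝ) ≤ d := Nat.cast_nonneg _
  obtain ⟨I2, hI2⟩ : ∃ I2, I2 = Set.Icc (-(2 * d : ℝ)) (2 * d) := ⟨_, rfl⟩
  obtain ⟨I3, hI3⟩ : ∃ I3, I3 = Set.Icc (-(3 * d : ℝ)) (3 * d) := ⟨_, rfl⟩
  have hm2 : MeasurableSet I2 := by rw [hI2]; exact measurableSet_Icc
  have hm3 : MeasurableSet I3 := by rw [hI3]; exact measurableSet_Icc
  have hsub : I2 ⊆ I3 := by
    rw [hI2, hI3]
    exact Set.Icc_subset_Icc (by linarith) (by linarith)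
  have hg3 : IntegrableOn (fun E : ℝ => (GF (F0 d) (E : ℂ)).im) I3 := by
    rw [hI3]
    exact c0.continuousOn.integrableOn_compact isCompact_Icc
  have hf3 : volume I3 < ⊤ := by
    rw [hI3, Real.volume_Icc]
    exact ENNReal.ofReal_lt_top
  have hr3 : IntegrableOn (fun E : ℝ => (GF (F1 d) (E : ℂ)).im / (GF (F0 d) (E : ℂ)).im) I3 := by
    have := ratio_int hO d hd 0 le_rfl I3 hm3 hf3
    simpa using this
  have hup : (∫ E in I3, (GF (F0 d) (E : ℂ)).im) ≤ Real.pi := by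
    refine mass_up d I3 hm3 (3 * d) (CH d) (by rw [hI3]) _ hg3 fun E _ t ht ht1 => ?_
    have h1 := hol0 hO d hd ((E : ℂ) + (t : ℂ) * Complex.I) (E : ℂ) (by simp [ht.le]) (by simp)
    rw [add_sub_cancel_left, norm_mul, Complex.norm_I, mul_one, Complex.norm_real,
      Real.norm_of_nonneg ht.le] at h1
    rw [← Complex.sub_im]
    exact (Complex.abs_im_le_norm _).trans h1
  have htot := (mass3 hO d hd).2
  rw [← hI2] at htot
  have hsp : ∀ f : ℝ → ℝ, IntegrableOn f I3 →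
      (∫ E in I3, f E) = (∫ E in I2, f E) + ∫ E in I3 \ I2, f E := by
    intro f hf
    rw [← setIntegral_union disjoint_sdiff_right (hm3.diff hm2) (hf.mono_set hsub)
      (hf.mono_set sdiff_subset), union_sdiff_cancel hsub]
  have h1 := hsp _ hg3
  rw [htot] at h1
  have hnn : ∀ E : ℝ, 0 ≤ (GF (F0 d) (E : ℂ)).im := fun E =>
    (GF_im hO d hd (E : ℂ) (by simp)).1.trans (GF_im hO d hd (E : ℂ) (by simp)).2
  have h2 : (∫ E in I3 \ I2, (GF (F0 d) (E : ℂ)).im) = 0 := by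
    apply le_antisymm
    · linarith
    · exact integral_nonneg fun E => hnn E
  rw [integral_eq_zero_iff_of_nonneg hnn (hg3.mono_set sdiff_subset)] at h2
  have h3 : (∫ E in I3 \ I2, (GF (F1 d) (E : ℂ)).im / (GF (F0 d) (E : ℂ)).im) = 0 := by
    rw [← integral_zero ℝ ℝ (μ := volume.restrict (I3 \ I2))]
    apply integral_congr_ae
    filter_upwards [h2] with E hE
    have hE' : (GF (F0 d) (E : ℂ)).im = 0 := hE
    rw [hE', div_zero]
  rw [← hI3, hsp _ hr3, h3, add_zero, hI2]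
  rfl

theorem gam_lim (hO : S_OSC) (d : ℕ) (hd : 3 ≤ d) (ε : ℝ) (hε : 0 < ε) :
    ∃ k0 : ℝ, 0 < k0 ∧ ∀ k : ℝ, 0 < k → k ≤ k0 →
      |(∫ E in Set.Icc (-(3 * d : ℝ)) (3 * d),
        (GF (F1 d) (E : ℂ)).im / (k + (GF (F0 d) (E : ℂ)).im)) - Gam d| ≤ ε := by
  obtain ⟨c0, c1⟩ := gcont hO d hd
  rw [← gam_eq hO d hd]
  have hf3 : volume (Set.Icc (-(3 * d : ℝ)) (3 * d)) < ⊤ := by
    rw [Real.volume_Icc]
    exact ENNReal.ofReal_lt_top
  have hfin : IsFiniteMeasure (volume.restrict (Set.Icc (-(3 * d : ℝ)) (3 * d))) :=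
    ⟨by rwa [Measure.restrict_apply_univ]⟩
  have hlim : Tendsto (fun k : ℝ => ∫ E in Set.Icc (-(3 * d : ℝ)) (3 * d),
      (GF (F1 d) (E : ℂ)).im / (k + (GF (F0 d) (E : ℂ)).im)) (𝓝[>] 0)
      (𝓝 (∫ E in Set.Icc (-(3 * d : ℝ)) (3 * d),
        (GF (F1 d) (E : ℂ)).im / (GF (F0 d) (E : ℂ)).im)) := by
    apply tendsto_integral_filter_of_dominated_convergence (fun _ => (1 : ℝ))
    · exact Filter.Eventually.of_forall fun k =>
        (c1.measurable.div (measurable_const.add c0.measurable)).aestronglyMeasurable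
    · filter_upwards [self_mem_nhdsWithin] with k hk
      refine Filter.Eventually.of_forall fun E => ?_
      obtain ⟨h1, h2⟩ := GF_im hO d hd (E : ℂ) (by simp)
      obtain ⟨h3, h4⟩ := ratio_bd _ _ k h1 h2 (le_of_lt hk)
      rw [Real.norm_of_nonneg h3]
      exact h4
    · exact integrable_const _
    · refine Filter.Eventually.of_forall fun E => ?_
      obtain ⟨h1, h2⟩ := GF_im hO d hd (E : ℂ) (by simp)
      obtain ⟨p, hp⟩ : ∃ p, p = (GF (F1 d) (E : ℂ)).im := ⟨_, rfl⟩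
      obtain ⟨q, hq⟩ : ∃ q, q = (GF (F0 d) (E : ℂ)).im := ⟨_, rfl⟩
      rw [← hp] at h1
      rw [← hp, ← hq] at h2
      rw [← hp, ← hq]
      rcases eq_or_lt_of_le (h1.trans h2) with h3 | h3
      · have h4 : p = 0 := le_antisymm (h2.trans h3.symm.le) h1
        rw [h4]
        simp
      · have hc : ContinuousAt (fun k : ℝ => p / (k + q)) 0 := by
          apply ContinuousAt.div continuousAt_const (by fun_prop)
          rw [zero_add]
          exact h3.ne'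
        have h5 := hc.tendsto
        simp only [zero_add] at h5
        exact h5.mono_left nhdsWithin_le_nhds
  have h1 := (Metric.tendsto_nhds.1 hlim) ε hε
  obtain ⟨k0, hk0, h2⟩ := mem_nhdsGT_iff_exists_Ioc_subset.1 h1
  refine ⟨k0, hk0, fun k hk hkk => ?_⟩
  have h3 := h2 ⟨hk, hkk⟩
  have h4 : dist (∫ E in Set.Icc (-(3 * d : ℝ)) (3 * d),
      (GF (F1 d) (E : ℂ)).im / (k + (GF (F0 d) (E : ℂ)).im))
      (∫ E in Set.Icc (-(3 * d : ℝ)) (3 * d), (GF (F1 d) (E : ℂ)).im / (GF (F0 d) (E : ℂ)).im) <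
      ε := h3
  rw [Real.dist_eq] at h4
  exact h4.le

theorem gam_bd (hO : S_OSC) (d : ℕ) (hd : 3 ≤ d) : 0 ≤ Gam d ∧ Gam d ≤ 4 * d := by
  have hd0 : (0 : ℝ) ≤ d := Nat.cast_nonneg _
  have hpt : ∀ E : ℝ, 0 ≤ (GF (F1 d) (E : ℂ)).im / (GF (F0 d) (E : ℂ)).im ∧
      (GF (F1 d) (E : ℂ)).im / (GF (F0 d) (E : ℂ)).im ≤ 1 := by
    intro E
    obtain ⟨h1, h2⟩ := GF_im hO d hd (E : ℂ) (by simp)
    have := ratio_bd _ _ 0 h1 h2 le_rfl
    rwa [zero_add] at this
  refine ⟨integral_nonneg fun E => (hpt E).1, ?_⟩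
  have h1 := norm_setIntegral_le_of_norm_le_const (μ := volume)
    (s := Set.Icc (-(2 * d : ℝ)) (2 * d)) (C := 1)
    (f := fun E : ℝ => (GF (F1 d) (E : ℂ)).im / (GF (F0 d) (E : ℂ)).im) (by
      rw [Real.volume_Icc]
      exact ENNReal.ofReal_lt_top) (fun E _ => by
      rw [Real.norm_of_nonneg (hpt E).1]
      exact (hpt E).2)
  rw [Real.volume_real_Icc_of_le (by linarith)] at h1
  have h2 := le_abs_self (Gam d)
  rw [Real.norm_eq_abs] at h1
  have h3 : Gam d ≤ 1 * (2 * d - -(2 * d)) := h2.trans h1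
  linarith

theorem Fs_meas {d : ℕ} {V : Zd d → ℝ} {a : Zd d} {ψ : ℝ → Zd d → ℂ} (h : Sol d V a ψ)
    (j : Fin d) : Measurable (Fs ψ a j) := by
  have h1 : Fs ψ a j = fun s => (∑' x : Zd d, ENNReal.ofReal
      (((x j : ℝ) - a j) ^ 2 * ‖ψ s x‖ ^ 2)).toReal := by
    funext s
    rw [ENNReal.tsum_toReal_eq fun x => ENNReal.ofReal_ne_top]
    unfold Fs
    exact tsum_congr fun x => (ENNReal.toReal_ofReal (by positivity)).symm
  rw [h1]
  apply Measurable.ennreal_toReal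
  exact Measurable.ennreal_tsum fun x => by
    have := h.cont x
    fun_prop

end Pool.Agent.X133.QM
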