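import Pool.Agent.X133.QM.Fin
import Pool.Agent.X133.QP.Exi

/-! The mean square displacement, dimension at least three: the theorem. -/

set_option autoImplicit false
set_option linter.unusedSectionVars false
set_option linter.unusedVariables false

open scoped BigOperators Topology
open MeasureTheory Filter Set

namespace Pool.Agent.X133.QM

open Pool.Agent.W788.BK
open Pool.Agent.H4R2.LO (Zd)
open Pool.Agent.W788.BK.Num
open Pool.Agent.TH794.QD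
open Pool.Agent.TH794.QE
open Pool.Agent.TH794.HK
open Pool.Agent.X133.LL (ev_pow)
open Pool.Agent.X133.QP

theorem msd3 (hES : S_ES) (hTH : S_THIRD) (hFL : S_FLUCT) (hIN : S_INV)
    (hSU : S_SUP) (hQB : S_QB) (hLO : S_LOW) (hAD : S_ADM) (hFA : S_FAC) (hO : S_OSC)
    (d : ℕ) (hd : 3 ≤ d) (φ : ℝ → ℝ) (hφ : Continuous φ) (hφs : HasCompactSupport φ)
    (v ε : ℝ) (hv : 0 < v) (hε : 0 < ε) :
    ∃ K c0 : ℝ, 1 ≤ K ∧ 0 < c0 ∧ ∀ c : ℝ, 0 < c → c ≤ c0 →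
    ∀ (μ : Measure ℝ), IsProbabilityMeasure μ → (∀ᵐ s ∂μ, |s| ≤ c) → ∫ s, s ∂μ = 0 →
    ∀ s2 : ℝ, ∫ s, s ^ 2 ∂μ = s2 → v * c ^ 2 ≤ s2 →
      ∃ G : Set (Zd d → ℝ), MeasurableSet G ∧
        1 - Real.exp (-c ^ (-(1 / 101) : ℝ)) ≤
          (Measure.infinitePi fun _ : Zd d => μ).real G ∧
        ∀ ω ∈ G, ∀ a : Zd d, ‖a‖ ≤ Real.exp (c ^ (-(1 / 101) : ℝ)) →
          (∃ ψ, Sol d (fun x => 2 * d + ω x) a ψ) ∧
          ∀ ψ : ℝ → Zd d → ℂ, Sol d (fun x => 2 * d + ω x) a ψ → ∀ j : Fin d,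
          (∀ᵐ t ∂(volume.restrict (Ioi (0 : ℝ))),
            Summable fun x : Zd d => ((x j : ℝ) - a j) ^ 2 * ‖ψ t x‖ ^ 2) ∧
          IntegrableOn (fun t => Real.exp (-(2 * s2) * t) * Fs ψ a j t) (Ioi (0 : ℝ)) ∧
          ∀ s : ℝ, c ^ (83 / 41 : ℝ) ≤ s → s ≤ s2 / K →
            |∫ t in Ioi (0 : ℝ), s * φ (s * t) * (s * s2 * Fs ψ a j t -
              4 / Real.pi * Gam d * s * t)| ≤ ε := by
  have hpi := Real.pi_gt_three
  have hd3 : (3 : ℝ) ≤ d := by exact_mod_cast hd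
  obtain ⟨hG0, hG4⟩ := gam_bd hO d hd
  obtain ⟨CC, hCC⟩ : ∃ CC : ℝ, CC = 18 * d + 20736 := ⟨_, rfl⟩
  have hCC0 : 0 < CC := by rw [hCC]; positivity
  obtain ⟨n, δ, hδ, hw⟩ := weier2 φ hφ hφs ε hε CC hCC0
  obtain ⟨k0, hk0, hk⟩ := gam_lim hO d hd (δ / 8) (by positivity)
  obtain ⟨κ0, hκ0⟩ : ∃ κ0, κ0 = min k0 1 := ⟨_, rfl⟩
  have hκ00 : 0 < κ0 := by rw [hκ0]; exact lt_min hk0 one_pos
  have hκ01 : κ0 ≤ 1 := by rw [hκ0]; exact min_le_right _ _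
  have hκ0k : κ0 ≤ k0 := by rw [hκ0]; exact min_le_left _ _
  obtain ⟨K, hK⟩ : ∃ K : ℝ, K = ((n : ℝ) + 1) / κ0 := ⟨_, rfl⟩
  have hn0 : (0 : ℝ) ≤ n := Nat.cast_nonneg _
  have hK1 : 1 ≤ K := by
    rw [hK, le_div_iff₀ hκ00]
    linarith
  obtain ⟨γ0, γ1, hF⟩ := finF hES hTH hFL hIN hSU hQB hLO hAD hFA hO d (by omega)
  obtain ⟨hreg, -, hF1⟩ := hF 1 one_pos le_rfl
  have hid : ∀ E : ℝ, |E| ≤ 3 * d → γ0 E = GF (F0 d) (E : ℂ) ∧ γ1 E = GF (F1 d) (E : ℂ) := by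
    intro E hE
    obtain ⟨h2, h3, -, -⟩ := hreg E (Or.inr ⟨hd, hE⟩)
    exact ⟨tendsto_nhds_unique h2 (lim3 _ _ (hol0 hO d hd) E),
      tendsto_nhds_unique h3 (lim3 _ _ (hol1 hO d hd) E)⟩
  obtain ⟨c1, hc1, hc1b⟩ := hF1 v hv
  have hev : ∀ᶠ c in 𝓝[>] (0 : ℝ),
      ((6 * (d : ℝ)) * c ^ (1 / 300 : ℝ) ≤ δ / 4) ∧ (20736 * c ^ (1 : ℝ) ≤ δ / 4) ∧
      (2 * c ^ (1 / 1640 : ℝ) ≤ 1) ∧ (1 * c ^ (1 : ℝ) ≤ min c1 1) ∧
      (1 / v * c ^ (1 / 40 : ℝ) ≤ 1) := by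
    filter_upwards [ev_pow (6 * (d : ℝ)) (δ / 4) (1 / 300) (by positivity) (by norm_num),
      ev_pow 20736 (δ / 4) 1 (by positivity) one_pos,
      ev_pow 2 1 (1 / 1640) one_pos (by norm_num),
      ev_pow 1 (min c1 1) 1 (lt_min hc1 one_pos) one_pos,
      ev_pow (1 / v) 1 (1 / 40) one_pos (by norm_num)] with c h1 h2 h3 h4 h5
    exact ⟨h1, h2, h3, h4, h5⟩
  obtain ⟨c0, hc0, hev2⟩ := mem_nhdsGT_iff_exists_Ioc_subset.1 hev
  refine ⟨K, c0, hK1, hc0, fun c hc hcc μ hμ hμb hμ0 s2 hs2 hvs => ?_⟩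
  obtain ⟨n1, n2, n3, n4, n5⟩ := hev2 ⟨hc, hcc⟩
  rw [one_mul, Real.rpow_one] at n4
  rw [Real.rpow_one] at n2
  have hcc1 : c ≤ c1 := n4.trans (min_le_left _ _)
  have hc1' : c ≤ 1 := n4.trans (min_le_right _ _)
  have hs20 : 0 < s2 := lt_of_lt_of_le (by positivity) hvs
  have hs2c : s2 ≤ c ^ 2 := by
    rw [← hs2]
    have h1 := norm_integral_le_of_norm_le_const (μ := μ) (f := fun s : ℝ => s ^ 2) (C := c ^ 2) (by
      filter_upwards [hμb] with s hs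
      rw [Real.norm_of_nonneg (sq_nonneg _), ← sq_abs]
      exact pow_le_pow_left₀ (abs_nonneg _) hs 2)
    rw [probReal_univ, mul_one] at h1
    exact (le_abs_self _).trans h1
  have hs21 : s2 ≤ 1 := hs2c.trans (pow_le_one₀ hc.le hc1')
  have hlow : c ^ (81 / 40 : ℝ) ≤ s2 := by
    have h1 : c ^ (81 / 40 : ℝ) = c ^ (1 / 40 : ℝ) * c ^ 2 := by
      rw [← Real.rpow_natCast, ← Real.rpow_add hc]
      norm_num
    have h2 : c ^ (1 / 40 : ℝ) ≤ v := by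
      rw [div_mul_eq_mul_div, one_mul, div_le_one hv] at n5
      exact n5
    calc c ^ (81 / 40 : ℝ) = c ^ (1 / 40 : ℝ) * c ^ 2 := h1
      _ ≤ v * c ^ 2 := by gcongr
      _ ≤ s2 := hvs
  have herr1 : c ^ (1 / 300 : ℝ) ≤ 1 := Real.rpow_le_one hc.le hc1' (by norm_num)
  obtain ⟨G, hG, hP, hGω⟩ := hc1b c hc hcc1 μ hμ hμb hμ0 s2 hs2 hvs
  refine ⟨G, hG, hP, fun ω hω a ha => ?_⟩
  obtain ⟨hωc, hlawG⟩ := hGω ω hω
  refine ⟨exists_sol' (fun x => 2 * d + ω x) a, ?_⟩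
  intro ψ hψ j
  -- one Laplace parameter
  have key : ∀ η : ℝ, c ^ (81 / 40 : ℝ) ≤ η → η ≤ s2 →
      (∀ᵐ s ∂(volume.restrict (Ioi (0 : ℝ))),
        Summable fun x : Zd d => ((x j : ℝ) - a j) ^ 2 * ‖ψ s x‖ ^ 2) ∧
      IntegrableOn (fun s => Real.exp (-(2 * η) * s) * Fs ψ a j s) (Ioi (0 : ℝ)) ∧
      |2 * Real.pi * (η ^ 2 * s2) * (∫ s in Ioi (0 : ℝ), Real.exp (-(2 * η) * s) * Fs ψ a j s) -
        2 * ∫ E in Set.Icc (-(3 * d : ℝ)) (3 * d),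
          (GF (F1 d) (E : ℂ)).im / (η / s2 + (GF (F0 d) (E : ℂ)).im)| ≤
        6 * d * c ^ (1 / 300 : ℝ) + 5184 * Real.pi * (η ^ 2 * s2) := by
    intro η hη1 hη2
    have hη0 : 0 < η := lt_of_lt_of_le (by positivity) hη1
    have hk : 0 ≤ η / s2 := by positivity
    refine msd_eta hd ω c hc hc1' hωc a ψ hψ j η s2 hη0 hs20
      (fun E => (GF (F1 d) (E : ℂ)).im / (η / s2 + (GF (F0 d) (E : ℂ)).im))
      (fun E hE => ?_) ?_ _ (by positivity) herr1 (fun E hE => ?_)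
    · obtain ⟨h1, h2⟩ := GF_im hO d hd (E : ℂ) (by simp)
      exact ratio_bd _ _ _ h1 h2 hk
    · exact ratio_int hO d hd _ hk _ measurableSet_Icc (by
        rw [Real.volume_Icc]
        exact ENNReal.ofReal_lt_top)
    · have hRs : Rs d (fun x => 2 * d + ω x) a (2 * d - E) η
          (fun x => Complex.I * La ψ (2 * d - E) η x) := ⟨La_sum hψ _ η hη0, La_eq hψ _ η hη0⟩
      have h1 := hlawG a ha (2 * d - E) (by
        rw [sub_sub_cancel]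
        exact Or.inr ⟨hd, hE⟩) η hη1 hη2 _ hRs j
      have hI : ∀ x, ‖Complex.I * La ψ (2 * d - E) η x‖ = ‖La ψ (2 * d - E) η x‖ := by
        intro x
        rw [norm_mul, Complex.norm_I, one_mul]
      unfold QM Pg at h1
      rw [sub_sub_cancel, (hid E hE).1, (hid E hE).2] at h1
      simp only [hI] at h1
      exact h1
  refine ⟨(key s2 hlow le_rfl).1, (key s2 hlow le_rfl).2.1, fun s hs1 hs2' => ?_⟩
  have hs0 : 0 < s := lt_of_lt_of_le (by positivity) hs1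
  have hsc1 : 2 * c ^ (81 / 40 : ℝ) ≤ s := by
    have h1 : c ^ (81 / 40 : ℝ) = c ^ (83 / 41 : ℝ) * c ^ (1 / 1640 : ℝ) := by
      rw [← Real.rpow_add hc]
      congr 1
      norm_num
    have h2 : 0 < c ^ (83 / 41 : ℝ) := by positivity
    calc 2 * c ^ (81 / 40 : ℝ) = c ^ (83 / 41 : ℝ) * (2 * c ^ (1 / 1640 : ℝ)) := by
          rw [h1]; ring
      _ ≤ c ^ (83 / 41 : ℝ) * 1 := by gcongr
      _ ≤ s := by rw [mul_one]; exact hs1
  have hsc2 : ((n : ℝ) + 1) * s ≤ κ0 * s2 := by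
    rw [hK] at hs2'
    rw [le_div_iff₀ (by positivity), mul_div_assoc', div_le_iff₀ hκ00] at hs2'
    linarith
  have key2 : ∀ i : ℕ, i ≤ n →
      IntegrableOn (fun t => Real.exp (-((i + 1) * s) * t) * Fs ψ a j t) (Ioi (0 : ℝ)) ∧
      |2 * Real.pi * ((((i : ℝ) + 1) * s / 2) ^ 2 * s2) *
        (∫ t in Ioi (0 : ℝ), Real.exp (-((i + 1) * s) * t) * Fs ψ a j t) - 2 * Gam d| ≤ δ ∧
      |2 * Real.pi * ((((i : ℝ) + 1) * s / 2) ^ 2 * s2) *
        (∫ t in Ioi (0 : ℝ), Real.exp (-((i + 1) * s) * t) * Fs ψ a j t)| ≤ CC := by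
    intro i hi
    have hin : (i : ℝ) ≤ n := by exact_mod_cast hi
    have hi0 : (0 : ℝ) ≤ i := Nat.cast_nonneg _
    obtain ⟨η, hη⟩ : ∃ η, η = ((i : ℝ) + 1) * s / 2 := ⟨_, rfl⟩
    have hη1 : s / 2 ≤ η := by
      rw [hη]
      nlinarith
    have hη2 : η ≤ κ0 * s2 := by
      rw [hη]
      have h1 : ((i : ℝ) + 1) * s ≤ ((n : ℝ) + 1) * s := by gcongr
      have h2 : 0 ≤ ((i : ℝ) + 1) * s := by positivity
      linarith
    have hη0 : 0 < η := by linarith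
    have hη3 : η ≤ s2 := hη2.trans (mul_le_of_le_one_left hs20.le hκ01)
    obtain ⟨-, m2, m3⟩ := key η (by linarith) hη3
    have e1 : 2 * η = ((i : ℝ) + 1) * s := by rw [hη]; ring
    rw [e1] at m2 m3
    rw [← hη]
    have hkk : η / s2 ≤ k0 := by
      rw [div_le_iff₀ hs20]
      exact hη2.trans (by gcongr)
    have h3 := hk (η / s2) (by positivity) hkk
    have hη6 : η ^ 2 * s2 ≤ c := by
      have h4 : η ^ 2 ≤ 1 := pow_le_one₀ hη0.le (hη3.trans hs21)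
      calc η ^ 2 * s2 ≤ 1 * c ^ 2 := by gcongr
        _ ≤ c := by nlinarith
    have hη7 : 5184 * Real.pi * (η ^ 2 * s2) ≤ 20736 * c := by
      have h4 := Real.pi_le_four
      have h5 : 0 ≤ η ^ 2 * s2 := by positivity
      calc 5184 * Real.pi * (η ^ 2 * s2) ≤ 5184 * 4 * c := by gcongr
        _ = 20736 * c := by ring
    obtain ⟨X, hX⟩ : ∃ X, X = 2 * Real.pi * (η ^ 2 * s2) *
      (∫ t in Ioi (0 : ℝ), Real.exp (-((i + 1) * s) * t) * Fs ψ a j t) := ⟨_, rfl⟩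
    obtain ⟨Z, hZ⟩ : ∃ Z, Z = ∫ E in Set.Icc (-(3 * d : ℝ)) (3 * d),
      (GF (F1 d) (E : ℂ)).im / (η / s2 + (GF (F0 d) (E : ℂ)).im) := ⟨_, rfl⟩
    rw [← hX, ← hZ] at m3
    rw [← hZ] at h3
    rw [← hX]
    refine ⟨m2, ?_, ?_⟩
    · have h6 : |X - 2 * Gam d| ≤ |X - 2 * Z| + 2 * |Z - Gam d| := by
        have h7 : X - 2 * Gam d = (X - 2 * Z) + 2 * (Z - Gam d) := by ring
        rw [h7]
        refine (abs_add_le _ _).trans (le_of_eq ?_)
        rw [abs_mul, abs_of_pos (by norm_num : (0 : ℝ) < 2)]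
      linarith
    · have h8 : 0 ≤ Z ∧ Z ≤ 6 * d := by
        have hpt : ∀ E : ℝ, 0 ≤ (GF (F1 d) (E : ℂ)).im / (η / s2 + (GF (F0 d) (E : ℂ)).im) ∧
            (GF (F1 d) (E : ℂ)).im / (η / s2 + (GF (F0 d) (E : ℂ)).im) ≤ 1 := by
          intro E
          obtain ⟨h1, h2⟩ := GF_im hO d hd (E : ℂ) (by simp)
          exact ratio_bd _ _ _ h1 h2 (by positivity)
        rw [hZ]
        refine ⟨integral_nonneg fun E => (hpt E).1, ?_⟩
        have h1 := norm_setIntegral_le_of_norm_le_const (μ := volume)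
          (s := Set.Icc (-(3 * d : ℝ)) (3 * d)) (C := 1)
          (f := fun E : ℝ => (GF (F1 d) (E : ℂ)).im / (η / s2 + (GF (F0 d) (E : ℂ)).im)) (by
            rw [Real.volume_Icc]
            exact ENNReal.ofReal_lt_top) (fun E _ => by
            rw [Real.norm_of_nonneg (hpt E).1]
            exact (hpt E).2)
        rw [Real.volume_real_Icc_of_le (by linarith), Real.norm_eq_abs] at h1
        have h2 := (le_abs_self _).trans h1
        linarith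
      have h9 : 6 * d * c ^ (1 / 300 : ℝ) ≤ 6 * d := mul_le_of_le_one_right (by positivity) herr1
      have h10 : |X| ≤ |X - 2 * Z| + 2 * Z := by
        have h11 : X = (X - 2 * Z) + 2 * Z := by ring
        have h12 : |X| ≤ |X - 2 * Z| + |2 * Z| := by
          conv_lhs => rw [h11]
          exact abs_add_le _ _
        rwa [abs_of_nonneg (by linarith : 0 ≤ 2 * Z)] at h12
      rw [hCC]
      linarith
  -- the real time
  have hfr : ∀ i : ℕ, ∀ t : ℝ, s * Real.exp (-((i + 1) * s) * t) * (s * s2 * Fs ψ a j t) =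
      s ^ 2 * s2 * (Real.exp (-((i + 1) * s) * t) * Fs ψ a j t) := fun i t => by ring
  have hft : ∀ i : ℕ, ∀ t : ℝ, s * Real.exp (-((i + 1) * s) * t) * (4 / Real.pi * Gam d * s * t) =
      4 / Real.pi * Gam d * s ^ 2 * (Real.exp (-((i + 1) * s) * t) * t) := fun i t => by ring
  have hz : ∀ t : ℝ, Real.exp (-s * t) = Real.exp (-((((0 : ℕ) : ℝ) + 1) * s) * t) := by
    intro t
    congr 1
    push_cast
    ring
  have hFs0 : ∀ t, 0 ≤ Fs ψ a j t := fun t => tsum_nonneg fun x => by positivity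
  have hval : ∀ i : ℕ, i ≤ n → s ^ 2 * s2 *
      (∫ t in Ioi (0 : ℝ), Real.exp (-((i + 1) * s) * t) * Fs ψ a j t) =
      2 / (Real.pi * ((i : ℝ) + 1) ^ 2) * (2 * Real.pi * ((((i : ℝ) + 1) * s / 2) ^ 2 * s2) *
        (∫ t in Ioi (0 : ℝ), Real.exp (-((i + 1) * s) * t) * Fs ψ a j t)) := by
    intro i _
    have h1 : (0 : ℝ) < (i : ℝ) + 1 := by positivity
    field_simp
  have hval2 : ∀ i : ℕ, 4 / Real.pi * Gam d * s ^ 2 *
      (∫ t in Ioi (0 : ℝ), Real.exp (-((i + 1) * s) * t) * t) =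
      2 / (Real.pi * ((i : ℝ) + 1) ^ 2) * (2 * Gam d) := by
    intro i
    rw [(te (((i : ℝ) + 1) * s) (by positivity)).2]
    have h1 : (0 : ℝ) < (i : ℝ) + 1 := by positivity
    field_simp
    ring
  have hcoef : ∀ i : ℕ, 0 ≤ 2 / (Real.pi * ((i : ℝ) + 1) ^ 2) ∧
      2 / (Real.pi * ((i : ℝ) + 1) ^ 2) ≤ 1 := by
    intro i
    refine ⟨by positivity, ?_⟩
    rw [div_le_one (by positivity)]
    have h1 : (0 : ℝ) ≤ (i : ℝ) := Nat.cast_nonneg _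
    have h2 : (1 : ℝ) ≤ ((i : ℝ) + 1) ^ 2 := by nlinarith
    nlinarith
  have es : ∀ t : ℝ, s * Real.exp (-s * t) * (s * s2 * Fs ψ a j t) =
      s ^ 2 * s2 * (Real.exp (-((((0 : ℕ) : ℝ) + 1) * s) * t) * Fs ψ a j t) := by
    intro t
    rw [hz t]
    ring
  have et : ∀ t : ℝ, s * Real.exp (-s * t) * (4 / Real.pi * Gam d * s * t) =
      4 / Real.pi * Gam d * s ^ 2 * (Real.exp (-((((0 : ℕ) : ℝ) + 1) * s) * t) * t) := by
    intro t
    rw [hz t]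
    ring
  have b1 : IntegrableOn (fun t : ℝ => s * Real.exp (-s * t) * (s * s2 * Fs ψ a j t))
      (Ioi (0 : ℝ)) := by
    have h1 : (fun t : ℝ => s * Real.exp (-s * t) * (s * s2 * Fs ψ a j t)) = fun t : ℝ =>
      s ^ 2 * s2 * (Real.exp (-((((0 : ℕ) : ℝ) + 1) * s) * t) * Fs ψ a j t) := funext es
    rw [h1]
    exact (key2 0 (Nat.zero_le _)).1.const_mul _
  have b2 : IntegrableOn (fun t : ℝ => s * Real.exp (-s * t) * (4 / Real.pi * Gam d * s * t))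
      (Ioi (0 : ℝ)) := by
    have h1 : (fun t : ℝ => s * Real.exp (-s * t) * (4 / Real.pi * Gam d * s * t)) = fun t : ℝ =>
      4 / Real.pi * Gam d * s ^ 2 * (Real.exp (-((((0 : ℕ) : ℝ) + 1) * s) * t) * t) := funext et
    rw [h1]
    exact (te ((((0 : ℕ) : ℝ) + 1) * s) (by positivity)).1.const_mul _
  have b3 : (∫ t in Ioi (0 : ℝ), s * Real.exp (-s * t) * (s * s2 * Fs ψ a j t)) ≤ CC := by
    have h1 : (∫ t in Ioi (0 : ℝ), s * Real.exp (-s * t) * (s * s2 * Fs ψ a j t)) =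
        2 / (Real.pi * (((0 : ℕ) : ℝ) + 1) ^ 2) * (2 * Real.pi *
          (((((0 : ℕ) : ℝ) + 1) * s / 2) ^ 2 * s2) *
        (∫ t in Ioi (0 : ℝ), Real.exp (-((((0 : ℕ) : ℝ) + 1) * s) * t) * Fs ψ a j t)) := by
      rw [← hval 0 (Nat.zero_le _), ← integral_const_mul]
      exact integral_congr_ae (ae_of_all _ es)
    obtain ⟨-, -, h2⟩ := key2 0 (Nat.zero_le _)
    obtain ⟨h3, h4⟩ := hcoef 0
    rw [h1]
    exact (mul_le_mul_of_nonneg_left ((le_abs_self _).trans h2) h3).trans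
      (mul_le_of_le_one_left hCC0.le h4)
  have b4 : (∫ t in Ioi (0 : ℝ), s * Real.exp (-s * t) * (4 / Real.pi * Gam d * s * t)) ≤ CC := by
    have h1 : (∫ t in Ioi (0 : ℝ), s * Real.exp (-s * t) * (4 / Real.pi * Gam d * s * t)) =
        2 / (Real.pi * (((0 : ℕ) : ℝ) + 1) ^ 2) * (2 * Gam d) := by
      rw [← hval2 0, ← integral_const_mul]
      exact integral_congr_ae (ae_of_all _ et)
    obtain ⟨h3, h4⟩ := hcoef 0
    rw [h1]
    have h5 := mul_le_of_le_one_left (by linarith : 0 ≤ 2 * Gam d) h4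
    rw [hCC]
    linarith
  have b5 : ∀ i : ℕ, i ≤ n → |∫ t in Ioi (0 : ℝ), s * Real.exp (-((i + 1) * s) * t) *
      (s * s2 * Fs ψ a j t - 4 / Real.pi * Gam d * s * t)| ≤ δ := by
    intro i hi
    obtain ⟨m1, m2, -⟩ := key2 i hi
    have e1 : ∀ t : ℝ, s * Real.exp (-((i + 1) * s) * t) * (s * s2 * Fs ψ a j t -
        4 / Real.pi * Gam d * s * t) =
        s ^ 2 * s2 * (Real.exp (-((i + 1) * s) * t) * Fs ψ a j t) -
        4 / Real.pi * Gam d * s ^ 2 * (Real.exp (-((i + 1) * s) * t) * t) := fun t => by ring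
    have h1 : (∫ t in Ioi (0 : ℝ), s * Real.exp (-((i + 1) * s) * t) *
        (s * s2 * Fs ψ a j t - 4 / Real.pi * Gam d * s * t)) =
        2 / (Real.pi * ((i : ℝ) + 1) ^ 2) * (2 * Real.pi * ((((i : ℝ) + 1) * s / 2) ^ 2 * s2) *
        (∫ t in Ioi (0 : ℝ), Real.exp (-((i + 1) * s) * t) * Fs ψ a j t) - 2 * Gam d) := by
      rw [mul_sub, ← hval i hi, ← hval2 i, ← integral_const_mul, ← integral_const_mul,
        ← integral_sub (m1.const_mul _) ((te (((i : ℝ) + 1) * s) (by positivity)).1.const_mul _)]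
      exact integral_congr_ae (ae_of_all _ e1)
    rw [h1, abs_mul, abs_of_nonneg (hcoef i).1]
    exact (mul_le_mul (hcoef i).2 m2 (abs_nonneg _) zero_le_one).trans (le_of_eq (one_mul _))
  have b6 : ∀ t : ℝ, 0 < t → 0 ≤ s * s2 * Fs ψ a j t := fun t _ =>
    mul_nonneg (mul_nonneg hs0.le hs20.le) (hFs0 t)
  have b7 : ∀ t : ℝ, 0 < t → 0 ≤ 4 / Real.pi * Gam d * s * t := fun t ht =>
    mul_nonneg (mul_nonneg (mul_nonneg (by positivity) hG0) hs0.le) ht.le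
  have b8 : AEStronglyMeasurable (fun t : ℝ => s * s2 * Fs ψ a j t)
      (volume.restrict (Ioi (0 : ℝ))) := ((Fs_meas hψ j).const_mul _).aestronglyMeasurable
  have b9 : AEStronglyMeasurable (fun t : ℝ => 4 / Real.pi * Gam d * s * t)
      (volume.restrict (Ioi (0 : ℝ))) := (measurable_id.const_mul _).aestronglyMeasurable
  exact hw s hs0 (fun t : ℝ => s * s2 * Fs ψ a j t) (fun t : ℝ => 4 / Real.pi * Gam d * s * t)
    b6 b7 b8 b9 b1 b2 b3 b4 b5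

end Pool.Agent.X133.QM
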