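import Pool.Agent.X133.QP.Pl

/-! Weighted Plancherel for the evolution of a site. -/

set_option autoImplicit false
set_option linter.unusedSectionVars false
set_option linter.unusedVariables false

open scoped BigOperators Topology ENNReal
open MeasureTheory Filter Set

namespace Pool.Agent.X133.QM

open Pool.Agent.H4R2.LO (Zd)
open Pool.Agent.TH794.QD
open Pool.Agent.X133.QP

variable {d : ℕ} {V : Zd d → ℝ} {a : Zd d} {ψ : ℝ → Zd d → ℂ}

theorem La_cont (h : Sol d V a ψ) (t : ℝ) (ht : 0 < t) (x : Zd d) :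
    Continuous fun E : ℝ => La ψ E t x := by
  have h1 := hh_int h t ht x
  have hc : Continuous (FourierTransform.fourier (hh ψ t x)) := by
    exact VectorFourier.fourierIntegral_continuous Real.continuous_fourierChar
      (by exact continuous_inner) h1
  have : (fun E : ℝ => La ψ E t x) = fun E => FourierTransform.fourier (hh ψ t x)
      ((2 * Real.pi)⁻¹ * (-E)) := by
    funext E
    exact La_fou ψ E t x
  rw [this]
  fun_prop

theorem plw (h : Sol d V a ψ) (t : ℝ) (ht : 0 < t) (w : Zd d → ℝ) (hw : ∀ x, 0 ≤ w x) :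
    ∫⁻ E : ℝ, ∑' x, ENNReal.ofReal (w x * ‖La ψ E t x‖ ^ 2) =
      ENNReal.ofReal (2 * Real.pi) * ∫⁻ s in Ioi (0 : ℝ),
        ENNReal.ofReal (Real.exp (-(2 * t) * s)) * ∑' x, ENNReal.ofReal (w x * ‖ψ s x‖ ^ 2) := by
  have e1 : ∀ x, ∫⁻ E : ℝ, ENNReal.ofReal (w x * ‖La ψ E t x‖ ^ 2) =
      ENNReal.ofReal (w x * (2 * Real.pi * ∫ s in Ioi (0 : ℝ),
        Real.exp (-(2 * t) * s) * ‖ψ s x‖ ^ 2)) := by
    intro x
    rw [← (site h t ht x).2, ← integral_const_mul, ofReal_integral_eq_lintegral_ofReal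
      ((site h t ht x).1.const_mul _)
      (Filter.Eventually.of_forall fun E => mul_nonneg (hw x) (sq_nonneg _))]
  have e2 : ∀ x, ENNReal.ofReal (2 * Real.pi) * ∫⁻ s in Ioi (0 : ℝ),
      ENNReal.ofReal (Real.exp (-(2 * t) * s)) * ENNReal.ofReal (w x * ‖ψ s x‖ ^ 2) =
      ENNReal.ofReal (w x * (2 * Real.pi * ∫ s in Ioi (0 : ℝ),
        Real.exp (-(2 * t) * s) * ‖ψ s x‖ ^ 2)) := by
    intro x
    have e3 : ∀ s : ℝ, ENNReal.ofReal (Real.exp (-(2 * t) * s)) *
        ENNReal.ofReal (w x * ‖ψ s x‖ ^ 2) =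
        ENNReal.ofReal (w x * (Real.exp (-(2 * t) * s) * ‖ψ s x‖ ^ 2)) := by
      intro s
      rw [← ENNReal.ofReal_mul (Real.exp_pos _).le]
      congr 1
      ring
    simp only [e3]
    rw [← ofReal_integral_eq_lintegral_ofReal ((sq_int h t ht x).const_mul _)
      (Filter.Eventually.of_forall fun s => mul_nonneg (hw x) (by positivity)),
      ← ENNReal.ofReal_mul (by positivity), integral_const_mul]
    congr 1
    ring
  rw [lintegral_tsum fun x => by
    have := La_cont h t ht x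
    fun_prop, tsum_congr e1, ← tsum_congr e2, ENNReal.tsum_mul_left]
  congr 1
  rw [← lintegral_tsum fun x => by
    have := h.cont x
    fun_prop]
  refine lintegral_congr fun s => ?_
  rw [ENNReal.tsum_mul_left]

/-- **the weighted Plancherel identity** -/
theorem msd_one (h : Sol d V a ψ) (t : ℝ) (ht : 0 < t) (w : Zd d → ℝ) (hw : ∀ x, 0 ≤ w x)
    (bd : ℝ → ℝ) (hbd : Integrable bd) (hQ : ∀ E : ℝ,
      (Summable fun x => w x * ‖La ψ E t x‖ ^ 2) ∧ ∑' x, w x * ‖La ψ E t x‖ ^ 2 ≤ bd E) :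
    (∀ᵐ s ∂(volume.restrict (Ioi (0 : ℝ))), Summable fun x => w x * ‖ψ s x‖ ^ 2) ∧
    IntegrableOn (fun s => Real.exp (-(2 * t) * s) * ∑' x, w x * ‖ψ s x‖ ^ 2) (Ioi (0 : ℝ)) ∧
    Integrable (fun E : ℝ => ∑' x, w x * ‖La ψ E t x‖ ^ 2) ∧
    ∫ E : ℝ, ∑' x, w x * ‖La ψ E t x‖ ^ 2 = 2 * Real.pi * ∫ s in Ioi (0 : ℝ),
      Real.exp (-(2 * t) * s) * ∑' x, w x * ‖ψ s x‖ ^ 2 := by
  have hnn : ∀ (u : Zd d → ℂ) x, 0 ≤ w x * ‖u x‖ ^ 2 := fun u x =>
    mul_nonneg (hw x) (sq_nonneg _)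
  have htr : ∀ u : Zd d → ℂ, (∑' x, ENNReal.ofReal (w x * ‖u x‖ ^ 2)).toReal =
      ∑' x, w x * ‖u x‖ ^ 2 := by
    intro u
    rw [ENNReal.tsum_toReal_eq fun x => ENNReal.ofReal_ne_top]
    exact tsum_congr fun x => ENNReal.toReal_ofReal (hnn u x)
  have hm1 : Measurable fun E : ℝ => ∑' x, ENNReal.ofReal (w x * ‖La ψ E t x‖ ^ 2) :=
    Measurable.ennreal_tsum fun x => by
      have := La_cont h t ht x
      fun_prop
  have hm2 : Measurable fun s : ℝ => ∑' x, ENNReal.ofReal (w x * ‖ψ s x‖ ^ 2) :=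
    Measurable.ennreal_tsum fun x => by
      have := h.cont x
      fun_prop
  have hfin : ∫⁻ E : ℝ, ∑' x, ENNReal.ofReal (w x * ‖La ψ E t x‖ ^ 2) ≠ ∞ := by
    have h1 : ∫⁻ E : ℝ, ∑' x, ENNReal.ofReal (w x * ‖La ψ E t x‖ ^ 2) ≤
        ∫⁻ E : ℝ, ENNReal.ofReal (bd E) := by
      refine lintegral_mono fun E => ?_
      obtain ⟨h2, h3⟩ := hQ E
      rw [← ENNReal.ofReal_tsum_of_nonneg (fun x => hnn _ x) h2]
      exact ENNReal.ofReal_le_ofReal h3
    refine (lt_of_le_of_lt h1 ?_).ne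
    have h4 := hbd.lintegral_lt_top
    exact h4
  have hpl := plw h t ht w hw
  have hmE : Measurable fun s : ℝ => ENNReal.ofReal (Real.exp (-(2 * t) * s)) *
      ∑' x, ENNReal.ofReal (w x * ‖ψ s x‖ ^ 2) := by
    apply Measurable.mul _ hm2
    fun_prop
  have hfin2 : ∫⁻ s in Ioi (0 : ℝ), ENNReal.ofReal (Real.exp (-(2 * t) * s)) *
      ∑' x, ENNReal.ofReal (w x * ‖ψ s x‖ ^ 2) ≠ ∞ := by
    intro hcon
    rw [hcon, ENNReal.mul_top (by
      rw [Ne, ENNReal.ofReal_eq_zero, not_le]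
      positivity)] at hpl
    exact hfin hpl
  have hae := ae_lt_top hmE hfin2
  have htr2 : ∀ s : ℝ, (ENNReal.ofReal (Real.exp (-(2 * t) * s)) *
      ∑' x, ENNReal.ofReal (w x * ‖ψ s x‖ ^ 2)).toReal =
      Real.exp (-(2 * t) * s) * ∑' x, w x * ‖ψ s x‖ ^ 2 := by
    intro s
    rw [ENNReal.toReal_mul, htr, ENNReal.toReal_ofReal (Real.exp_pos _).le]
  refine ⟨?_, ?_, ?_, ?_⟩
  · filter_upwards [hae] with s hs
    have h1 : ∑' x, ENNReal.ofReal (w x * ‖ψ s x‖ ^ 2) ≠ ∞ := by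
      intro hcon
      rw [hcon, ENNReal.mul_top (by
        rw [Ne, ENNReal.ofReal_eq_zero, not_le]
        exact Real.exp_pos _)] at hs
      exact lt_irrefl _ hs
    have h2 := ENNReal.summable_toReal h1
    refine h2.congr fun x => ?_
    exact ENNReal.toReal_ofReal (hnn _ x)
  · have h1 := integrable_toReal_of_lintegral_ne_top hmE.aemeasurable hfin2
    simp only [htr2] at h1
    exact h1
  · have h1 := integrable_toReal_of_lintegral_ne_top hm1.aemeasurable hfin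
    simp only [htr] at h1
    exact h1
  · have h1 := integral_toReal hm1.aemeasurable (ae_lt_top hm1 hfin)
    have h2 := integral_toReal hmE.aemeasurable hae
    simp only [htr] at h1
    simp only [htr2] at h2
    rw [h1, h2, hpl, ENNReal.toReal_mul, ENNReal.toReal_ofReal (by positivity)]

end Pool.Agent.X133.QM
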